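import Pool.Agent.Zk3.GA.Def
import Pool.Agent.Zk1.BIR.Def

/-!
# The class of helper1 (coefficients bounded on average) is contained in the class `Co`
-/

set_option autoImplicit false

namespace Pool.Agent.Zk17

open Finset Filter Topology
open Pool.Agent.Zk3.GL (gl)
open Pool.Agent.Zk1.BIR (CB)
open Pool.Agent.Zk3.GA (Co)

variable {D : ℝ} {a : ℕ → ℂ} {g : ℕ → ℝ}

lemma cb_g (h : CB D a g) {p : ℕ} (hp : p.Prime) : g p ^ 2 ≤ D ^ 2 * p := by
  refine le_trans ?_ (h.gs p)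
  exact Finset.single_le_sum (f := fun q => g q ^ 2) (fun i _ => sq_nonneg _)
    (Finset.mem_filter.2 ⟨Finset.mem_range.2 (Nat.lt_succ_self p), hp⟩)

lemma sqrt_pp {p : ℕ} (hp1 : (1 : ℝ) ≤ p) (j : ℕ) : Real.sqrt ((p ^ (j + 2) : ℕ) : ℝ) = p * Real.sqrt p ^ j := by
  have h0 : Real.sqrt p ^ j * Real.sqrt p ^ j = (p : ℝ) ^ j := by
    rw [← mul_pow, Real.mul_self_sqrt (by linarith)]
  have h1 : ((p ^ (j + 2) : ℕ) : ℝ) = (p * Real.sqrt p ^ j) * (p * Real.sqrt p ^ j) := by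
    calc ((p ^ (j + 2) : ℕ) : ℝ) = p * p * (p : ℝ) ^ j := by push_cast; ring
      _ = p * p * (Real.sqrt p ^ j * Real.sqrt p ^ j) := by rw [h0]
      _ = _ := by ring
  rw [h1, Real.sqrt_mul_self (by positivity)]

lemma cb_norm (h : CB D a g) (hD : 1 ≤ D) (n : ℕ) : ‖a n‖ ≤ D ^ 2 * Real.sqrt n * Real.log n := by
  by_cases hn : IsPrimePow n
  swap
  · rw [h.pp n hn, norm_zero]
    rcases Nat.eq_zero_or_pos n with rfl | h0
    · simp
    · have : 0 ≤ Real.log n := Real.log_natCast_nonneg n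
      positivity
  obtain ⟨p, k, hp, hk, rfl⟩ := (isPrimePow_nat_iff _).1 hn
  have hp1 : (1 : ℝ) ≤ p := by exact_mod_cast hp.one_lt.le
  have hlp : 0 ≤ Real.log p := Real.log_nonneg hp1
  have hg1 := h.g1 p
  have hg2 := cb_g h hp
  have hgg : g p ≤ g p ^ 2 := by nlinarith
  have hDD : 1 ≤ D ^ 2 := by nlinarith
  obtain ⟨j, rfl | rfl⟩ : ∃ j, k = 1 ∨ k = j + 2 := ⟨k - 2, by omega⟩
  · rw [pow_one]
    refine (h.ap p hp).trans (mul_le_mul_of_nonneg_right ?_ hlp)
    -- g ≤ D √p ≤ D² √p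
    have h1 : g p ≤ D * Real.sqrt p := by
      refine abs_le_of_sq_le_sq' ?_ (by positivity) |>.2
      rw [mul_pow, Real.sq_sqrt (by linarith)]
      exact hg2
    refine h1.trans (mul_le_mul_of_nonneg_right ?_ (Real.sqrt_nonneg _))
    nlinarith
  · refine (h.apj p hp j).trans ?_
    have h1 : Real.sqrt ((p ^ (j + 2) : ℕ) : ℝ) = p * Real.sqrt p ^ j := sqrt_pp hp1 j
    rw [h1]
    have h2 : Real.log p ≤ Real.log ((p ^ (j + 2) : ℕ) : ℝ) := by
      refine Real.log_le_log (by linarith) ?_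
      push_cast
      exact le_self_pow₀ hp1 (by omega)
    have h3 : g p ^ 2 * Real.sqrt p ^ j ≤ D ^ 2 * (p * Real.sqrt p ^ j) := by
      have : 0 ≤ Real.sqrt (p : ℝ) ^ j := by positivity
      nlinarith
    exact mul_le_mul h3 h2 hlp (by positivity)

/-- partial summation -/
lemma cb_sum_div (h : CB D a g) (N : ℕ) :
    ∑ p ∈ (Finset.range (N + 1)).filter Nat.Prime, g p ^ 2 / p ≤
      (∑ p ∈ (Finset.range (N + 1)).filter Nat.Prime, g p ^ 2) / (N + 1) + D ^ 2 * Real.log (N + 1) := by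
  induction N with
  | zero =>
    have : (Finset.range (0 + 1)).filter Nat.Prime = ∅ := by decide
    rw [this]
    simp
  | succ N ih =>
    have hG := h.gs (N + 1)
    rw [Finset.range_add_one, Finset.filter_insert] at hG ⊢
    set S := ∑ p ∈ (Finset.range (N + 1)).filter Nat.Prime, g p ^ 2 with hS
    have hlog : 1 / ((N : ℝ) + 2) ≤ Real.log (N + 1 + 1) - Real.log (N + 1) := by
      have h1 : (0 : ℝ) < N + 1 := by positivity
      rw [← Real.log_div (by positivity) (by positivity)]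
      have h2 := Real.one_sub_inv_le_log_of_pos (x := ((N : ℝ) + 1 + 1) / (N + 1)) (by positivity)
      refine le_trans (le_of_eq ?_) h2
      rw [inv_div]
      field_simp
      ring
    have hD2 : 0 ≤ D ^ 2 := sq_nonneg D
    push_cast at hG ⊢
    by_cases hp : (N + 1).Prime
    · rw [if_pos hp, Finset.sum_insert (by simp)] at hG
      rw [if_pos hp, Finset.sum_insert (by simp), Finset.sum_insert (by simp)]
      push_cast
      rw [← hS] at hG ⊢
      have h3 : g (N + 1) ^ 2 / ((N : ℝ) + 1) + S / (N + 1) = (g (N + 1) ^ 2 + S) / (N + 1 + 1) +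
          (g (N + 1) ^ 2 + S) / ((N + 1) * (N + 1 + 1)) := by
        field_simp
      have h4 : (g (N + 1) ^ 2 + S) / (((N : ℝ) + 1) * (N + 1 + 1)) ≤ D ^ 2 * (1 / (N + 2)) := by
        rw [div_le_iff₀ (by positivity)]
        have : D ^ 2 * (1 / ((N : ℝ) + 2)) * ((N + 1) * (N + 1 + 1)) = D ^ 2 * (N + 1) := by
          field_simp
          ring
        rw [this]
        exact hG
      have h5 : D ^ 2 * (1 / ((N : ℝ) + 2)) ≤ D ^ 2 * (Real.log (N + 1 + 1) - Real.log (N + 1)) :=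
        mul_le_mul_of_nonneg_left hlog hD2
      linarith
    · rw [if_neg hp] at hG ⊢
      rw [← hS] at hG ⊢
      have h3 : S / ((N : ℝ) + 1) = S / (N + 1 + 1) + S / ((N + 1) * (N + 1 + 1)) := by
        field_simp
      have h4 : S / (((N : ℝ) + 1) * (N + 1 + 1)) ≤ D ^ 2 * (1 / (N + 2)) := by
        rw [div_le_iff₀ (by positivity)]
        have : D ^ 2 * (1 / ((N : ℝ) + 2)) * ((N + 1) * (N + 1 + 1)) = D ^ 2 * (N + 1) := by
          field_simp
          ring
        rw [this]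
        exact hG
      have h5 : D ^ 2 * (1 / ((N : ℝ) + 2)) ≤ D ^ 2 * (Real.log (N + 1 + 1) - Real.log (N + 1)) :=
        mul_le_mul_of_nonneg_left hlog hD2
      linarith

lemma cb_sum (h : CB D a g) {N : ℕ} (hN : 1 ≤ N) :
    ∑ p ∈ (Finset.Icc 1 N).filter Nat.Prime, g p ^ 2 / p ≤ D ^ 2 * (2 + Real.log N) := by
  have h0 : (Finset.Icc 1 N).filter Nat.Prime ⊆ (Finset.range (N + 1)).filter Nat.Prime := by
    intro p hp
    simp only [Finset.mem_filter, Finset.mem_Icc, Finset.mem_range] at hp ⊢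
    exact ⟨by omega, hp.2⟩
  refine (Finset.sum_le_sum_of_subset_of_nonneg h0 fun i _ _ => by positivity).trans ?_
  refine (cb_sum_div h N).trans ?_
  have hN' : (1 : ℝ) ≤ N := by exact_mod_cast hN
  have h1 : (∑ p ∈ (Finset.range (N + 1)).filter Nat.Prime, g p ^ 2) / ((N : ℝ) + 1) ≤ D ^ 2 := by
    rw [div_le_iff₀ (by positivity)]
    have := h.gs N
    nlinarith [sq_nonneg D]
  have h2 : Real.log ((N : ℝ) + 1) ≤ 1 + Real.log N := by
    have h3 : (N : ℝ) + 1 ≤ 2 * N := by linarith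
    have h4 := Real.log_le_log (by positivity) h3
    rw [Real.log_mul (by norm_num) (by positivity)] at h4
    have := Real.log_two_lt_d9
    linarith
  nlinarith [sq_nonneg D]

lemma log_le_root (n : ℕ) : Real.log n ≤ 4 * (n : ℝ) ^ (1 / 4 : ℝ) := by
  have h := Real.log_le_rpow_div (x := (n : ℝ)) (Nat.cast_nonneg n) (ε := 1 / 4) (by norm_num)
  linarith [h]

lemma log_le_sqrt {n : ℕ} : Real.sqrt n * Real.log n ≤ n := by
  rcases Nat.eq_zero_or_pos n with rfl | h0
  · simp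
  have h1 : (0 : ℝ) < n := by exact_mod_cast h0
  have h2 : Real.log (Real.sqrt n) ≤ Real.sqrt n / Real.exp 1 := by
    have h3 := Real.add_one_le_exp (Real.log (Real.sqrt n) - 1)
    have h4 : Real.exp (Real.log (Real.sqrt n) - 1) = Real.sqrt n / Real.exp 1 := by
      rw [Real.exp_sub, Real.exp_log (Real.sqrt_pos.2 h1)]
    linarith
  have h5 : Real.log (Real.sqrt n) = Real.log n / 2 := Real.log_sqrt h1.le
  have h6 : Real.log n ≤ Real.sqrt n := by
    have h7 : Real.sqrt n / Real.exp 1 ≤ Real.sqrt n / 2 :=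
      div_le_div_of_nonneg_left (Real.sqrt_nonneg _) (by norm_num) (by linarith [Real.exp_one_gt_d9])
    rw [h5] at h2
    linarith
  calc Real.sqrt n * Real.log n ≤ Real.sqrt n * Real.sqrt n := mul_le_mul_of_nonneg_left h6 (Real.sqrt_nonneg _)
    _ = n := Real.mul_self_sqrt h1.le

lemma cb_two (h : CB D a g) (hD : 1 ≤ D) (n : ℕ) : ‖a n‖ * (n : ℝ) ^ (-2 : ℝ) ≤ 4 * D ^ 2 * (n : ℝ) ^ (-(5 / 4) : ℝ) := by
  rcases Nat.eq_zero_or_pos n with rfl | h0
  · rw [h.pp 0 not_isPrimePow_zero, norm_zero, zero_mul]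
    positivity
  have h1 : (0 : ℝ) < n := by exact_mod_cast h0
  have h2 := cb_norm h hD n
  have h3 := log_le_root n
  have h4 : (n : ℝ) ^ (-(5 / 4) : ℝ) = Real.sqrt n * (n : ℝ) ^ (1 / 4 : ℝ) * (n : ℝ) ^ (-2 : ℝ) := by
    rw [Real.sqrt_eq_rpow, ← Real.rpow_add h1, ← Real.rpow_add h1]
    norm_num
  rw [h4]
  have h5 : ‖a n‖ ≤ 4 * D ^ 2 * (Real.sqrt n * (n : ℝ) ^ (1 / 4 : ℝ)) := by
    refine h2.trans ?_
    have : D ^ 2 * Real.sqrt n * Real.log n ≤ D ^ 2 * Real.sqrt n * (4 * (n : ℝ) ^ (1 / 4 : ℝ)) :=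
      mul_le_mul_of_nonneg_left h3 (by positivity)
    linarith
  calc ‖a n‖ * (n : ℝ) ^ (-2 : ℝ) ≤ (4 * D ^ 2 * (Real.sqrt n * (n : ℝ) ^ (1 / 4 : ℝ))) * (n : ℝ) ^ (-2 : ℝ) :=
      mul_le_mul_of_nonneg_right h5 (by positivity)
    _ = _ := by ring

lemma sum54 : Summable fun n : ℕ => (n : ℝ) ^ (-(5 / 4) : ℝ) := Real.summable_nat_rpow.2 (by norm_num)

/-- the prime powers -/
lemma cb_powers (h : CB D a g) {N : ℕ} (hN : 1 ≤ N) :
    ∑ n ∈ (Finset.Ioc 0 N).filter (fun n : ℕ => ¬ n.Prime), ‖a n‖ / Real.sqrt n ≤ D ^ 2 * (2 + Real.log N) * Real.log N := by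
  classical
  set A := (Finset.Ioc 0 N).filter (fun n : ℕ => ¬ n.Prime ∧ IsPrimePow n) with hA
  have h1 : ∑ n ∈ (Finset.Ioc 0 N).filter (fun n : ℕ => ¬ n.Prime), ‖a n‖ / Real.sqrt n = ∑ n ∈ A, ‖a n‖ / Real.sqrt n := by
    symm
    refine Finset.sum_subset ?_ ?_
    · intro n hn
      simp only [hA, Finset.mem_filter] at hn ⊢
      exact ⟨hn.1, hn.2.1⟩
    · intro n hn hn2
      simp only [hA, Finset.mem_filter, not_and] at hn hn2
      rw [h.pp n (hn2 hn.1 hn.2), norm_zero, zero_div]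
  rw [h1]
  set f : ℕ → ℝ := fun p => g p ^ 2 / p * Real.log p with hf
  have h2 : ∀ n ∈ A, ‖a n‖ / Real.sqrt n ≤ f n.minFac := by
    intro n hn
    simp only [hA, Finset.mem_filter] at hn
    obtain ⟨p, k, hp, hk, rfl⟩ := (isPrimePow_nat_iff _).1 hn.2.2
    obtain ⟨j, rfl | rfl⟩ : ∃ j, k = 1 ∨ k = j + 2 := ⟨k - 2, by omega⟩
    · exact absurd (by simpa using hp) hn.2.1
    rw [hp.pow_minFac (by omega)]
    have hp1 : (1 : ℝ) ≤ p := by exact_mod_cast hp.one_lt.le
    have h3 : Real.sqrt ((p ^ (j + 2) : ℕ) : ℝ) = p * Real.sqrt p ^ j := sqrt_pp hp1 j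
    rw [h3]
    have hs : 0 < Real.sqrt (p : ℝ) ^ j := by positivity
    rw [div_le_iff₀ (by positivity)]
    refine (h.apj p hp j).trans (le_of_eq ?_)
    simp only [hf]
    field_simp
  refine (Finset.sum_le_sum h2).trans ?_
  have h3 : ∀ n ∈ A, n.minFac ∈ (Finset.Icc 1 N).filter Nat.Prime := by
    intro n hn
    simp only [hA, Finset.mem_filter, Finset.mem_Ioc] at hn
    obtain ⟨p, k, hp, hk, rfl⟩ := (isPrimePow_nat_iff _).1 hn.2.2
    rw [hp.pow_minFac (by omega)]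
    simp only [Finset.mem_filter, Finset.mem_Icc]
    exact ⟨⟨hp.one_lt.le, (Nat.le_self_pow (by omega) p).trans hn.1.2⟩, hp⟩
  rw [← Finset.sum_fiberwise_of_maps_to h3]
  have h4 : ∀ p ∈ (Finset.Icc 1 N).filter Nat.Prime, ∑ n ∈ A with n.minFac = p, f n.minFac ≤ g p ^ 2 / p * Real.log N := by
    intro p hp
    obtain ⟨hp1, hpp⟩ := Finset.mem_filter.1 hp
    have h5 : ∑ n ∈ A with n.minFac = p, f n.minFac = ((A.filter fun n => n.minFac = p).card : ℝ) * f p := by
      rw [Finset.sum_congr rfl fun n hn => by rw [(Finset.mem_filter.1 hn).2], Finset.sum_const, nsmul_eq_mul]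
    rw [h5]
    have h6 : (A.filter fun n => n.minFac = p).card ≤ Nat.log p N := by
      have h7 : (A.filter fun n => n.minFac = p) ⊆ (Finset.Icc 1 (Nat.log p N)).image fun k => p ^ k := by
        intro n hn
        simp only [hA, Finset.mem_filter, Finset.mem_Ioc] at hn
        obtain ⟨q, k, hq, hk, rfl⟩ := (isPrimePow_nat_iff _).1 hn.1.2.2
        have h8 := hn.2
        rw [hq.pow_minFac (by omega)] at h8
        subst h8
        refine Finset.mem_image.2 ⟨k, Finset.mem_Icc.2 ⟨hk, ?_⟩, rfl⟩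
        exact Nat.le_log_of_pow_le hq.one_lt hn.1.1.2
      refine (Finset.card_le_card h7).trans (Finset.card_image_le.trans ?_)
      simp
    have hp1' : (1 : ℝ) ≤ p := by exact_mod_cast hpp.one_lt.le
    have h9 : (Nat.log p N : ℝ) * Real.log p ≤ Real.log N := by
      rw [← Real.log_pow]
      refine Real.log_le_log (by positivity) ?_
      exact_mod_cast Nat.pow_log_le_self p (by omega)
    have h10 : ((A.filter fun n => n.minFac = p).card : ℝ) ≤ Nat.log p N := by exact_mod_cast h6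
    have h11 : 0 ≤ Real.log p := Real.log_nonneg hp1'
    have h12 : 0 ≤ g p ^ 2 / p := by positivity
    simp only [hf]
    calc ((A.filter fun n => n.minFac = p).card : ℝ) * (g p ^ 2 / p * Real.log p)
        ≤ (Nat.log p N : ℝ) * (g p ^ 2 / p * Real.log p) := mul_le_mul_of_nonneg_right h10 (mul_nonneg h12 h11)
      _ = g p ^ 2 / p * ((Nat.log p N : ℝ) * Real.log p) := by ring
      _ ≤ _ := mul_le_mul_of_nonneg_left h9 h12
  refine (Finset.sum_le_sum h4).trans ?_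
  rw [← Finset.sum_mul]
  exact mul_le_mul_of_nonneg_right (cb_sum h hN) (Real.log_natCast_nonneg N)

lemma norm_gl (n : ℕ) : ‖gl a n‖ = ‖a n‖ / Real.log n := by
  unfold gl
  rw [norm_div, Complex.norm_real, Real.norm_eq_abs, abs_of_nonneg (Real.log_natCast_nonneg n)]

lemma cb_gl_prime (h : CB D a g) {p : ℕ} (hp : p.Prime) : ‖gl a p‖ ≤ g p := by
  rw [norm_gl, div_le_iff₀ (Real.log_pos (by exact_mod_cast hp.one_lt))]
  exact h.ap p hp

/-- the partial sums of the coefficients of the logarithm -/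
lemma cb_gl_sum (h : CB D a g) {N : ℕ} (hN : 1 ≤ N) :
    ∑ n ∈ Finset.Icc 1 N, ‖gl a n‖ ≤ 130 * D ^ 2 * N := by
  classical
  have hN' : (1 : ℝ) ≤ N := by exact_mod_cast hN
  rw [← Finset.sum_filter_add_sum_filter_not (Finset.Icc 1 N) Nat.Prime]
  have h1 : ∑ n ∈ (Finset.Icc 1 N).filter Nat.Prime, ‖gl a n‖ ≤ D ^ 2 * N := by
    refine le_trans ?_ (h.gs N)
    refine le_trans (Finset.sum_le_sum (g := fun p => g p ^ 2) fun p hp => ?_)
      (Finset.sum_le_sum_of_subset_of_nonneg ?_ fun i _ _ => sq_nonneg _)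
    · have h2 := cb_gl_prime h (Finset.mem_filter.1 hp).2
      have h3 := h.g1 p
      nlinarith
    · intro p hp
      simp only [Finset.mem_filter, Finset.mem_Icc, Finset.mem_range] at hp ⊢
      exact ⟨by omega, hp.2⟩
  have h2 : ∑ n ∈ (Finset.Icc 1 N).filter (fun n => ¬ n.Prime), ‖gl a n‖ ≤ 129 * D ^ 2 * N := by
    have h3 : ∀ n ∈ (Finset.Icc 1 N).filter (fun n => ¬ n.Prime), ‖gl a n‖ ≤ 3 / 2 * Real.sqrt N * (‖a n‖ / Real.sqrt n) := by
      intro n hn
      obtain ⟨hn1, _⟩ := Finset.mem_filter.1 hn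
      obtain ⟨hn2, hn3⟩ := Finset.mem_Icc.1 hn1
      rcases Nat.lt_or_ge n 2 with h4 | h4
      · have h5 : n = 1 := by omega
        subst h5
        rw [norm_gl, h.pp 1 not_isPrimePow_one, norm_zero]
        simp
      · have h5 : (2 : ℝ) ≤ n := by exact_mod_cast h4
        have h6 : (2 / 3 : ℝ) ≤ Real.log n := by
          have := Real.log_le_log (by norm_num) h5
          have := Real.log_two_gt_d9
          linarith
        have h7 : 0 < Real.sqrt (n : ℝ) := Real.sqrt_pos.2 (by linarith)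
        have h8 : Real.sqrt (n : ℝ) ≤ Real.sqrt N := Real.sqrt_le_sqrt (by exact_mod_cast hn3)
        rw [norm_gl]
        have h9 : ‖a n‖ / Real.log n ≤ ‖a n‖ / (2 / 3) :=
          div_le_div_of_nonneg_left (norm_nonneg _) (by norm_num) h6
        refine h9.trans ?_
        have h10 : ‖a n‖ / (2 / 3) = 3 / 2 * Real.sqrt n * (‖a n‖ / Real.sqrt n) := by
          field_simp
        rw [h10]
        exact mul_le_mul_of_nonneg_right (by linarith) (by positivity)
    refine (Finset.sum_le_sum h3).trans ?_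
    rw [← Finset.mul_sum]
    have h4 : (Finset.Icc 1 N).filter (fun n => ¬ n.Prime) = (Finset.Ioc 0 N).filter (fun n : ℕ => ¬ n.Prime) := by
      ext n
      simp only [Finset.mem_filter, Finset.mem_Icc, Finset.mem_Ioc]
      constructor <;> rintro ⟨h5, h6⟩ <;> exact ⟨by omega, h6⟩
    rw [h4]
    have h5 := cb_powers h hN
    have h6 := log_le_root N
    have h7 : 1 ≤ (N : ℝ) ^ (1 / 4 : ℝ) := Real.one_le_rpow hN' (by norm_num)
    have h8 : Real.sqrt N = (N : ℝ) ^ (1 / 4 : ℝ) * (N : ℝ) ^ (1 / 4 : ℝ) := by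
      rw [Real.sqrt_eq_rpow, ← Real.rpow_add (by linarith)]
      norm_num
    have h9 : Real.sqrt N * Real.sqrt N = N := Real.mul_self_sqrt (by linarith)
    set x := (N : ℝ) ^ (1 / 4 : ℝ) with hx
    have h10 : 0 ≤ Real.log N := Real.log_natCast_nonneg N
    have h11 : (2 + Real.log N) * Real.log N ≤ 24 * (x * x) := by nlinarith
    have h12 : 0 ≤ D ^ 2 := sq_nonneg D
    have h13 : D ^ 2 * (2 + Real.log N) * Real.log N ≤ D ^ 2 * (24 * Real.sqrt N) := by
      rw [h8, mul_assoc]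
      exact mul_le_mul_of_nonneg_left h11 h12
    calc 3 / 2 * Real.sqrt N * ∑ n ∈ (Finset.Ioc 0 N).filter (fun n : ℕ => ¬ n.Prime), ‖a n‖ / Real.sqrt n
        ≤ 3 / 2 * Real.sqrt N * (D ^ 2 * (24 * Real.sqrt N)) :=
          mul_le_mul_of_nonneg_left (h5.trans h13) (by positivity)
      _ = 36 * D ^ 2 * (Real.sqrt N * Real.sqrt N) := by ring
      _ = 36 * D ^ 2 * N := by rw [h9]
      _ ≤ 129 * D ^ 2 * N := by nlinarith
  linarith

theorem co_of_cb (D : ℝ) (hD : 1 ≤ D) :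
    ∃ E : ℝ, 1 ≤ E ∧ ∀ (a : ℕ → ℂ) (g : ℕ → ℝ), Pool.Agent.Zk1.BIR.CB D a g → Pool.Agent.Zk3.GA.Co E a := by
  have hZ : 0 ≤ ∑' n : ℕ, (n : ℝ) ^ (-(5 / 4) : ℝ) := tsum_nonneg fun n => by positivity
  have hDD : D ≤ D ^ 2 := by nlinarith
  set Z := ∑' n : ℕ, (n : ℝ) ^ (-(5 / 4) : ℝ) with hZd
  have hE1 : D ^ 2 ≤ D ^ 2 * (1 + 4 * Z) := by nlinarith [sq_nonneg D]
  refine ⟨D ^ 2 * (1 + 4 * Z), by linarith, fun a g h => ?_⟩
  have hs : Summable fun n : ℕ => ‖a n‖ * (n : ℝ) ^ (-2 : ℝ) :=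
    Summable.of_nonneg_of_le (fun n => by positivity) (fun n => cb_two h hD n) (sum54.mul_left _)
  refine ⟨fun n hn => ?_, fun n => ?_, hs, ?_, ?_, fun N hN => ?_, fun N hN => ?_⟩
  · refine h.pp n fun h1 => ?_
    have := h1.two_le
    omega
  · have h1 := cb_norm h hD n
    have h2 := log_le_sqrt (n := n)
    have h3 : (0 : ℝ) ≤ n := Nat.cast_nonneg n
    calc ‖a n‖ ≤ D ^ 2 * Real.sqrt n * Real.log n := h1
      _ = D ^ 2 * (Real.sqrt n * Real.log n) := by ring
      _ ≤ D ^ 2 * n := mul_le_mul_of_nonneg_left h2 (sq_nonneg D)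
      _ ≤ _ := mul_le_mul_of_nonneg_right hE1 h3
  · refine (hs.tsum_le_tsum (fun n => cb_two h hD n) (sum54.mul_left _)).trans ?_
    rw [tsum_mul_left]
    nlinarith [sq_nonneg D]
  · refine LSeries.abscissaOfAbsConv_le_of_forall_lt_LSeriesSummable (x := (1 : ℝ)) fun y hy => ?_
    refine LSeriesSummable_of_sum_norm_bigO (r := 1) ?_ zero_le_one (by simpa using hy)
    refine Asymptotics.IsBigO.of_bound (130 * D ^ 2) ?_
    filter_upwards [eventually_ge_atTop 1] with N hN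
    rw [Real.rpow_one, Real.norm_of_nonneg (Finset.sum_nonneg fun i _ => norm_nonneg _),
      Real.norm_of_nonneg (Nat.cast_nonneg N)]
    exact cb_gl_sum h hN
  · have hN' : (1 : ℝ) ≤ N := by exact_mod_cast hN
    have hL : 0 ≤ Real.log N := Real.log_natCast_nonneg N
    have h1 : ∀ p ∈ (Finset.Icc 1 N).filter Nat.Prime, ‖gl a p‖ ^ 2 * Real.log p / p ≤ g p ^ 2 / p * Real.log N := by
      intro p hp
      obtain ⟨hp1, hpp⟩ := Finset.mem_filter.1 hp
      have h2 := pow_le_pow_left₀ (norm_nonneg _) (cb_gl_prime h hpp) 2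
      have h3 : Real.log p ≤ Real.log N := Real.log_le_log (by exact_mod_cast hpp.pos)
        (by exact_mod_cast (Finset.mem_Icc.1 hp1).2)
      have h4 : (0 : ℝ) < p := by exact_mod_cast hpp.pos
      rw [div_mul_eq_mul_div]
      refine div_le_div_of_nonneg_right ?_ h4.le
      exact mul_le_mul h2 h3 (Real.log_natCast_nonneg p) (sq_nonneg _)
    refine (Finset.sum_le_sum h1).trans ?_
    rw [← Finset.sum_mul]
    refine (mul_le_mul_of_nonneg_right (cb_sum h hN) hL).trans ?_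
    have h5 : D ^ 2 * (2 + Real.log N) * Real.log N ≤ D ^ 2 * (Real.log N + 6) ^ 2 := by
      rw [mul_assoc]
      exact mul_le_mul_of_nonneg_left (by nlinarith) (sq_nonneg D)
    refine h5.trans (mul_le_mul_of_nonneg_right ?_ (sq_nonneg _))
    have h6 : (1 : ℝ) ≤ D ^ 2 * (1 + 4 * Z) := by nlinarith
    nlinarith
  · have hL : 0 ≤ Real.log N := Real.log_natCast_nonneg N
    refine (cb_powers h hN).trans ?_
    have h5 : D ^ 2 * (2 + Real.log N) * Real.log N ≤ D ^ 2 * (2 + Real.log N) ^ 2 := by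
      rw [mul_assoc]
      exact mul_le_mul_of_nonneg_left (by nlinarith) (sq_nonneg D)
    exact h5.trans (mul_le_mul_of_nonneg_right hE1 (sq_nonneg _))

end Pool.Agent.Zk17
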