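import Mathlib

set_option autoImplicit false

/-!
# Chebyshev's function up to 121
-/

open Finset ArithmeticFunction

namespace Pool.Agent.Zk17

lemma notPP {n p r : ℕ} (hp : p.Prime) (hr : r.Prime) (hpr : p ≠ r) (h1 : p ∣ n) (h2 : r ∣ n) :
    vonMangoldt n = 0 := by
  rw [vonMangoldt_eq_zero_iff]
  intro h
  by_cases hn : n = 0
  · subst hn
    exact not_isPrimePow_zero h
  rw [isPrimePow_iff_unique_prime_dvd] at h
  obtain ⟨s, hs, hu⟩ := h
  exact hpr ((hu p ⟨hp, h1⟩).trans (hu r ⟨hr, h2⟩).symm)

/-- `p` if `n` is a power of the prime `p`, and `1` otherwise (for `n ≤ 121`) -/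
def ff (n : ℕ) : ℕ :=
  if n ∈ [2, 4, 8, 16, 32, 64] then 2 else if n ∈ [3, 9, 27, 81] then 3 else
  if n ∈ [5, 25] then 5 else if n ∈ [7, 49] then 7 else if n ∈ [11, 121] then 11 else
  if n ∈ [13, 17, 19, 23, 29, 31, 37, 41, 43, 47, 53, 59, 61, 67, 71, 73, 79, 83, 89, 97, 101, 103, 107, 109, 113] then n else 1

lemma lam_ff : ∀ n ∈ Icc 1 121, vonMangoldt n = Real.log (ff n) := by
  intro n hn
  rw [mem_Icc] at hn
  obtain ⟨h1, h2⟩ := hn
  interval_cases n
  · have : ff 1 = 1 := by decide
    rw [this, vonMangoldt_apply_one]; simp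
  · have : ff 2 = 2 := by decide
    rw [this, vonMangoldt_apply_prime (by norm_num)]
  · have : ff 3 = 3 := by decide
    rw [this, vonMangoldt_apply_prime (by norm_num)]
  · have : ff 4 = 2 := by decide
    rw [this, show 4 = 2 ^ 2 by norm_num, vonMangoldt_apply_pow (by norm_num),
      vonMangoldt_apply_prime (by norm_num)]
  · have : ff 5 = 5 := by decide
    rw [this, vonMangoldt_apply_prime (by norm_num)]
  · have : ff 6 = 1 := by decide
    rw [this, notPP (n := 6) (p := 2) (r := 3) (by norm_num) (by norm_num) (by norm_num) (by norm_num) (by norm_num)]; simp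
  · have : ff 7 = 7 := by decide
    rw [this, vonMangoldt_apply_prime (by norm_num)]
  · have : ff 8 = 2 := by decide
    rw [this, show 8 = 2 ^ 3 by norm_num, vonMangoldt_apply_pow (by norm_num),
      vonMangoldt_apply_prime (by norm_num)]
  · have : ff 9 = 3 := by decide
    rw [this, show 9 = 3 ^ 2 by norm_num, vonMangoldt_apply_pow (by norm_num),
      vonMangoldt_apply_prime (by norm_num)]
  · have : ff 10 = 1 := by decide
    rw [this, notPP (n := 10) (p := 2) (r := 5) (by norm_num) (by norm_num) (by norm_num) (by norm_num) (by norm_num)]; simp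
  · have : ff 11 = 11 := by decide
    rw [this, vonMangoldt_apply_prime (by norm_num)]
  · have : ff 12 = 1 := by decide
    rw [this, notPP (n := 12) (p := 2) (r := 3) (by norm_num) (by norm_num) (by norm_num) (by norm_num) (by norm_num)]; simp
  · have : ff 13 = 13 := by decide
    rw [this, vonMangoldt_apply_prime (by norm_num)]
  · have : ff 14 = 1 := by decide
    rw [this, notPP (n := 14) (p := 2) (r := 7) (by norm_num) (by norm_num) (by norm_num) (by norm_num) (by norm_num)]; simp
  · have : ff 15 = 1 := by decide
    rw [this, notPP (n := 15) (p := 3) (r := 5) (by norm_num) (by norm_num) (by norm_num) (by norm_num) (by norm_num)]; simp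
  · have : ff 16 = 2 := by decide
    rw [this, show 16 = 2 ^ 4 by norm_num, vonMangoldt_apply_pow (by norm_num),
      vonMangoldt_apply_prime (by norm_num)]
  · have : ff 17 = 17 := by decide
    rw [this, vonMangoldt_apply_prime (by norm_num)]
  · have : ff 18 = 1 := by decide
    rw [this, notPP (n := 18) (p := 2) (r := 3) (by norm_num) (by norm_num) (by norm_num) (by norm_num) (by norm_num)]; simp
  · have : ff 19 = 19 := by decide
    rw [this, vonMangoldt_apply_prime (by norm_num)]
  · have : ff 20 = 1 := by decide
    rw [this, notPP (n := 20) (p := 2) (r := 5) (by norm_num) (by norm_num) (by norm_num) (by norm_num) (by norm_num)]; simp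
  · have : ff 21 = 1 := by decide
    rw [this, notPP (n := 21) (p := 3) (r := 7) (by norm_num) (by norm_num) (by norm_num) (by norm_num) (by norm_num)]; simp
  · have : ff 22 = 1 := by decide
    rw [this, notPP (n := 22) (p := 2) (r := 11) (by norm_num) (by norm_num) (by norm_num) (by norm_num) (by norm_num)]; simp
  · have : ff 23 = 23 := by decide
    rw [this, vonMangoldt_apply_prime (by norm_num)]
  · have : ff 24 = 1 := by decide
    rw [this, notPP (n := 24) (p := 2) (r := 3) (by norm_num) (by norm_num) (by norm_num) (by norm_num) (by norm_num)]; simp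
  · have : ff 25 = 5 := by decide
    rw [this, show 25 = 5 ^ 2 by norm_num, vonMangoldt_apply_pow (by norm_num),
      vonMangoldt_apply_prime (by norm_num)]
  · have : ff 26 = 1 := by decide
    rw [this, notPP (n := 26) (p := 2) (r := 13) (by norm_num) (by norm_num) (by norm_num) (by norm_num) (by norm_num)]; simp
  · have : ff 27 = 3 := by decide
    rw [this, show 27 = 3 ^ 3 by norm_num, vonMangoldt_apply_pow (by norm_num),
      vonMangoldt_apply_prime (by norm_num)]
  · have : ff 28 = 1 := by decide
    rw [this, notPP (n := 28) (p := 2) (r := 7) (by norm_num) (by norm_num) (by norm_num) (by norm_num) (by norm_num)]; simp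
  · have : ff 29 = 29 := by decide
    rw [this, vonMangoldt_apply_prime (by norm_num)]
  · have : ff 30 = 1 := by decide
    rw [this, notPP (n := 30) (p := 2) (r := 3) (by norm_num) (by norm_num) (by norm_num) (by norm_num) (by norm_num)]; simp
  · have : ff 31 = 31 := by decide
    rw [this, vonMangoldt_apply_prime (by norm_num)]
  · have : ff 32 = 2 := by decide
    rw [this, show 32 = 2 ^ 5 by norm_num, vonMangoldt_apply_pow (by norm_num),
      vonMangoldt_apply_prime (by norm_num)]
  · have : ff 33 = 1 := by decide
    rw [this, notPP (n := 33) (p := 3) (r := 11) (by norm_num) (by norm_num) (by norm_num) (by norm_num) (by norm_num)]; simp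
  · have : ff 34 = 1 := by decide
    rw [this, notPP (n := 34) (p := 2) (r := 17) (by norm_num) (by norm_num) (by norm_num) (by norm_num) (by norm_num)]; simp
  · have : ff 35 = 1 := by decide
    rw [this, notPP (n := 35) (p := 5) (r := 7) (by norm_num) (by norm_num) (by norm_num) (by norm_num) (by norm_num)]; simp
  · have : ff 36 = 1 := by decide
    rw [this, notPP (n := 36) (p := 2) (r := 3) (by norm_num) (by norm_num) (by norm_num) (by norm_num) (by norm_num)]; simp
  · have : ff 37 = 37 := by decide
    rw [this, vonMangoldt_apply_prime (by norm_num)]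
  · have : ff 38 = 1 := by decide
    rw [this, notPP (n := 38) (p := 2) (r := 19) (by norm_num) (by norm_num) (by norm_num) (by norm_num) (by norm_num)]; simp
  · have : ff 39 = 1 := by decide
    rw [this, notPP (n := 39) (p := 3) (r := 13) (by norm_num) (by norm_num) (by norm_num) (by norm_num) (by norm_num)]; simp
  · have : ff 40 = 1 := by decide
    rw [this, notPP (n := 40) (p := 2) (r := 5) (by norm_num) (by norm_num) (by norm_num) (by norm_num) (by norm_num)]; simp
  · have : ff 41 = 41 := by decide
    rw [this, vonMangoldt_apply_prime (by norm_num)]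
  · have : ff 42 = 1 := by decide
    rw [this, notPP (n := 42) (p := 2) (r := 3) (by norm_num) (by norm_num) (by norm_num) (by norm_num) (by norm_num)]; simp
  · have : ff 43 = 43 := by decide
    rw [this, vonMangoldt_apply_prime (by norm_num)]
  · have : ff 44 = 1 := by decide
    rw [this, notPP (n := 44) (p := 2) (r := 11) (by norm_num) (by norm_num) (by norm_num) (by norm_num) (by norm_num)]; simp
  · have : ff 45 = 1 := by decide
    rw [this, notPP (n := 45) (p := 3) (r := 5) (by norm_num) (by norm_num) (by norm_num) (by norm_num) (by norm_num)]; simp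
  · have : ff 46 = 1 := by decide
    rw [this, notPP (n := 46) (p := 2) (r := 23) (by norm_num) (by norm_num) (by norm_num) (by norm_num) (by norm_num)]; simp
  · have : ff 47 = 47 := by decide
    rw [this, vonMangoldt_apply_prime (by norm_num)]
  · have : ff 48 = 1 := by decide
    rw [this, notPP (n := 48) (p := 2) (r := 3) (by norm_num) (by norm_num) (by norm_num) (by norm_num) (by norm_num)]; simp
  · have : ff 49 = 7 := by decide
    rw [this, show 49 = 7 ^ 2 by norm_num, vonMangoldt_apply_pow (by norm_num),
      vonMangoldt_apply_prime (by norm_num)]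
  · have : ff 50 = 1 := by decide
    rw [this, notPP (n := 50) (p := 2) (r := 5) (by norm_num) (by norm_num) (by norm_num) (by norm_num) (by norm_num)]; simp
  · have : ff 51 = 1 := by decide
    rw [this, notPP (n := 51) (p := 3) (r := 17) (by norm_num) (by norm_num) (by norm_num) (by norm_num) (by norm_num)]; simp
  · have : ff 52 = 1 := by decide
    rw [this, notPP (n := 52) (p := 2) (r := 13) (by norm_num) (by norm_num) (by norm_num) (by norm_num) (by norm_num)]; simp
  · have : ff 53 = 53 := by decide
    rw [this, vonMangoldt_apply_prime (by norm_num)]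
  · have : ff 54 = 1 := by decide
    rw [this, notPP (n := 54) (p := 2) (r := 3) (by norm_num) (by norm_num) (by norm_num) (by norm_num) (by norm_num)]; simp
  · have : ff 55 = 1 := by decide
    rw [this, notPP (n := 55) (p := 5) (r := 11) (by norm_num) (by norm_num) (by norm_num) (by norm_num) (by norm_num)]; simp
  · have : ff 56 = 1 := by decide
    rw [this, notPP (n := 56) (p := 2) (r := 7) (by norm_num) (by norm_num) (by norm_num) (by norm_num) (by norm_num)]; simp
  · have : ff 57 = 1 := by decide
    rw [this, notPP (n := 57) (p := 3) (r := 19) (by norm_num) (by norm_num) (by norm_num) (by norm_num) (by norm_num)]; simp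
  · have : ff 58 = 1 := by decide
    rw [this, notPP (n := 58) (p := 2) (r := 29) (by norm_num) (by norm_num) (by norm_num) (by norm_num) (by norm_num)]; simp
  · have : ff 59 = 59 := by decide
    rw [this, vonMangoldt_apply_prime (by norm_num)]
  · have : ff 60 = 1 := by decide
    rw [this, notPP (n := 60) (p := 2) (r := 3) (by norm_num) (by norm_num) (by norm_num) (by norm_num) (by norm_num)]; simp
  · have : ff 61 = 61 := by decide
    rw [this, vonMangoldt_apply_prime (by norm_num)]
  · have : ff 62 = 1 := by decide
    rw [this, notPP (n := 62) (p := 2) (r := 31) (by norm_num) (by norm_num) (by norm_num) (by norm_num) (by norm_num)]; simp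
  · have : ff 63 = 1 := by decide
    rw [this, notPP (n := 63) (p := 3) (r := 7) (by norm_num) (by norm_num) (by norm_num) (by norm_num) (by norm_num)]; simp
  · have : ff 64 = 2 := by decide
    rw [this, show 64 = 2 ^ 6 by norm_num, vonMangoldt_apply_pow (by norm_num),
      vonMangoldt_apply_prime (by norm_num)]
  · have : ff 65 = 1 := by decide
    rw [this, notPP (n := 65) (p := 5) (r := 13) (by norm_num) (by norm_num) (by norm_num) (by norm_num) (by norm_num)]; simp
  · have : ff 66 = 1 := by decide
    rw [this, notPP (n := 66) (p := 2) (r := 3) (by norm_num) (by norm_num) (by norm_num) (by norm_num) (by norm_num)]; simp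
  · have : ff 67 = 67 := by decide
    rw [this, vonMangoldt_apply_prime (by norm_num)]
  · have : ff 68 = 1 := by decide
    rw [this, notPP (n := 68) (p := 2) (r := 17) (by norm_num) (by norm_num) (by norm_num) (by norm_num) (by norm_num)]; simp
  · have : ff 69 = 1 := by decide
    rw [this, notPP (n := 69) (p := 3) (r := 23) (by norm_num) (by norm_num) (by norm_num) (by norm_num) (by norm_num)]; simp
  · have : ff 70 = 1 := by decide
    rw [this, notPP (n := 70) (p := 2) (r := 5) (by norm_num) (by norm_num) (by norm_num) (by norm_num) (by norm_num)]; simp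
  · have : ff 71 = 71 := by decide
    rw [this, vonMangoldt_apply_prime (by norm_num)]
  · have : ff 72 = 1 := by decide
    rw [this, notPP (n := 72) (p := 2) (r := 3) (by norm_num) (by norm_num) (by norm_num) (by norm_num) (by norm_num)]; simp
  · have : ff 73 = 73 := by decide
    rw [this, vonMangoldt_apply_prime (by norm_num)]
  · have : ff 74 = 1 := by decide
    rw [this, notPP (n := 74) (p := 2) (r := 37) (by norm_num) (by norm_num) (by norm_num) (by norm_num) (by norm_num)]; simp
  · have : ff 75 = 1 := by decide
    rw [this, notPP (n := 75) (p := 3) (r := 5) (by norm_num) (by norm_num) (by norm_num) (by norm_num) (by norm_num)]; simp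
  · have : ff 76 = 1 := by decide
    rw [this, notPP (n := 76) (p := 2) (r := 19) (by norm_num) (by norm_num) (by norm_num) (by norm_num) (by norm_num)]; simp
  · have : ff 77 = 1 := by decide
    rw [this, notPP (n := 77) (p := 7) (r := 11) (by norm_num) (by norm_num) (by norm_num) (by norm_num) (by norm_num)]; simp
  · have : ff 78 = 1 := by decide
    rw [this, notPP (n := 78) (p := 2) (r := 3) (by norm_num) (by norm_num) (by norm_num) (by norm_num) (by norm_num)]; simp
  · have : ff 79 = 79 := by decide
    rw [this, vonMangoldt_apply_prime (by norm_num)]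
  · have : ff 80 = 1 := by decide
    rw [this, notPP (n := 80) (p := 2) (r := 5) (by norm_num) (by norm_num) (by norm_num) (by norm_num) (by norm_num)]; simp
  · have : ff 81 = 3 := by decide
    rw [this, show 81 = 3 ^ 4 by norm_num, vonMangoldt_apply_pow (by norm_num),
      vonMangoldt_apply_prime (by norm_num)]
  · have : ff 82 = 1 := by decide
    rw [this, notPP (n := 82) (p := 2) (r := 41) (by norm_num) (by norm_num) (by norm_num) (by norm_num) (by norm_num)]; simp
  · have : ff 83 = 83 := by decide
    rw [this, vonMangoldt_apply_prime (by norm_num)]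
  · have : ff 84 = 1 := by decide
    rw [this, notPP (n := 84) (p := 2) (r := 3) (by norm_num) (by norm_num) (by norm_num) (by norm_num) (by norm_num)]; simp
  · have : ff 85 = 1 := by decide
    rw [this, notPP (n := 85) (p := 5) (r := 17) (by norm_num) (by norm_num) (by norm_num) (by norm_num) (by norm_num)]; simp
  · have : ff 86 = 1 := by decide
    rw [this, notPP (n := 86) (p := 2) (r := 43) (by norm_num) (by norm_num) (by norm_num) (by norm_num) (by norm_num)]; simp
  · have : ff 87 = 1 := by decide
    rw [this, notPP (n := 87) (p := 3) (r := 29) (by norm_num) (by norm_num) (by norm_num) (by norm_num) (by norm_num)]; simp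
  · have : ff 88 = 1 := by decide
    rw [this, notPP (n := 88) (p := 2) (r := 11) (by norm_num) (by norm_num) (by norm_num) (by norm_num) (by norm_num)]; simp
  · have : ff 89 = 89 := by decide
    rw [this, vonMangoldt_apply_prime (by norm_num)]
  · have : ff 90 = 1 := by decide
    rw [this, notPP (n := 90) (p := 2) (r := 3) (by norm_num) (by norm_num) (by norm_num) (by norm_num) (by norm_num)]; simp
  · have : ff 91 = 1 := by decide
    rw [this, notPP (n := 91) (p := 7) (r := 13) (by norm_num) (by norm_num) (by norm_num) (by norm_num) (by norm_num)]; simp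
  · have : ff 92 = 1 := by decide
    rw [this, notPP (n := 92) (p := 2) (r := 23) (by norm_num) (by norm_num) (by norm_num) (by norm_num) (by norm_num)]; simp
  · have : ff 93 = 1 := by decide
    rw [this, notPP (n := 93) (p := 3) (r := 31) (by norm_num) (by norm_num) (by norm_num) (by norm_num) (by norm_num)]; simp
  · have : ff 94 = 1 := by decide
    rw [this, notPP (n := 94) (p := 2) (r := 47) (by norm_num) (by norm_num) (by norm_num) (by norm_num) (by norm_num)]; simp
  · have : ff 95 = 1 := by decide
    rw [this, notPP (n := 95) (p := 5) (r := 19) (by norm_num) (by norm_num) (by norm_num) (by norm_num) (by norm_num)]; simp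
  · have : ff 96 = 1 := by decide
    rw [this, notPP (n := 96) (p := 2) (r := 3) (by norm_num) (by norm_num) (by norm_num) (by norm_num) (by norm_num)]; simp
  · have : ff 97 = 97 := by decide
    rw [this, vonMangoldt_apply_prime (by norm_num)]
  · have : ff 98 = 1 := by decide
    rw [this, notPP (n := 98) (p := 2) (r := 7) (by norm_num) (by norm_num) (by norm_num) (by norm_num) (by norm_num)]; simp
  · have : ff 99 = 1 := by decide
    rw [this, notPP (n := 99) (p := 3) (r := 11) (by norm_num) (by norm_num) (by norm_num) (by norm_num) (by norm_num)]; simp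
  · have : ff 100 = 1 := by decide
    rw [this, notPP (n := 100) (p := 2) (r := 5) (by norm_num) (by norm_num) (by norm_num) (by norm_num) (by norm_num)]; simp
  · have : ff 101 = 101 := by decide
    rw [this, vonMangoldt_apply_prime (by norm_num)]
  · have : ff 102 = 1 := by decide
    rw [this, notPP (n := 102) (p := 2) (r := 3) (by norm_num) (by norm_num) (by norm_num) (by norm_num) (by norm_num)]; simp
  · have : ff 103 = 103 := by decide
    rw [this, vonMangoldt_apply_prime (by norm_num)]
  · have : ff 104 = 1 := by decide
    rw [this, notPP (n := 104) (p := 2) (r := 13) (by norm_num) (by norm_num) (by norm_num) (by norm_num) (by norm_num)]; simp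
  · have : ff 105 = 1 := by decide
    rw [this, notPP (n := 105) (p := 3) (r := 5) (by norm_num) (by norm_num) (by norm_num) (by norm_num) (by norm_num)]; simp
  · have : ff 106 = 1 := by decide
    rw [this, notPP (n := 106) (p := 2) (r := 53) (by norm_num) (by norm_num) (by norm_num) (by norm_num) (by norm_num)]; simp
  · have : ff 107 = 107 := by decide
    rw [this, vonMangoldt_apply_prime (by norm_num)]
  · have : ff 108 = 1 := by decide
    rw [this, notPP (n := 108) (p := 2) (r := 3) (by norm_num) (by norm_num) (by norm_num) (by norm_num) (by norm_num)]; simp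
  · have : ff 109 = 109 := by decide
    rw [this, vonMangoldt_apply_prime (by norm_num)]
  · have : ff 110 = 1 := by decide
    rw [this, notPP (n := 110) (p := 2) (r := 5) (by norm_num) (by norm_num) (by norm_num) (by norm_num) (by norm_num)]; simp
  · have : ff 111 = 1 := by decide
    rw [this, notPP (n := 111) (p := 3) (r := 37) (by norm_num) (by norm_num) (by norm_num) (by norm_num) (by norm_num)]; simp
  · have : ff 112 = 1 := by decide
    rw [this, notPP (n := 112) (p := 2) (r := 7) (by norm_num) (by norm_num) (by norm_num) (by norm_num) (by norm_num)]; simp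
  · have : ff 113 = 113 := by decide
    rw [this, vonMangoldt_apply_prime (by norm_num)]
  · have : ff 114 = 1 := by decide
    rw [this, notPP (n := 114) (p := 2) (r := 3) (by norm_num) (by norm_num) (by norm_num) (by norm_num) (by norm_num)]; simp
  · have : ff 115 = 1 := by decide
    rw [this, notPP (n := 115) (p := 5) (r := 23) (by norm_num) (by norm_num) (by norm_num) (by norm_num) (by norm_num)]; simp
  · have : ff 116 = 1 := by decide
    rw [this, notPP (n := 116) (p := 2) (r := 29) (by norm_num) (by norm_num) (by norm_num) (by norm_num) (by norm_num)]; simp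
  · have : ff 117 = 1 := by decide
    rw [this, notPP (n := 117) (p := 3) (r := 13) (by norm_num) (by norm_num) (by norm_num) (by norm_num) (by norm_num)]; simp
  · have : ff 118 = 1 := by decide
    rw [this, notPP (n := 118) (p := 2) (r := 59) (by norm_num) (by norm_num) (by norm_num) (by norm_num) (by norm_num)]; simp
  · have : ff 119 = 1 := by decide
    rw [this, notPP (n := 119) (p := 7) (r := 17) (by norm_num) (by norm_num) (by norm_num) (by norm_num) (by norm_num)]; simp
  · have : ff 120 = 1 := by decide
    rw [this, notPP (n := 120) (p := 2) (r := 3) (by norm_num) (by norm_num) (by norm_num) (by norm_num) (by norm_num)]; simp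
  · have : ff 121 = 11 := by decide
    rw [this, show 121 = 11 ^ 2 by norm_num, vonMangoldt_apply_pow (by norm_num),
      vonMangoldt_apply_prime (by norm_num)]

lemma ff_pos (n : ℕ) (hn : 1 ≤ n) : 0 < ff n := by
  unfold ff
  split_ifs <;> omega

lemma chk : ∀ N ∈ range 122, (∏ n ∈ Icc 1 N, ff n) ^ 25 * 10000000000 ^ (26 * N) ≤
    27182818283 ^ (26 * N) := by
  decide +kernel

theorem psi120 : ∀ N : ℕ, N ≤ 121 →
    ∑ n ∈ Icc 1 N, vonMangoldt n ≤ 26 / 25 * (N : ℝ) := by
  intro N hN
  have h1 : ∑ n ∈ Icc 1 N, vonMangoldt n = Real.log ((∏ n ∈ Icc 1 N, ff n : ℕ) : ℝ) := by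
    push_cast
    rw [Real.log_prod (fun n hn => by
      have := ff_pos n (mem_Icc.1 hn).1
      exact_mod_cast this.ne')]
    apply sum_congr rfl
    intro n hn
    rw [mem_Icc] at hn
    exact lam_ff n (mem_Icc.2 ⟨hn.1, hn.2.trans hN⟩)
  rw [h1]
  have h2 := chk N (mem_range.2 (by omega))
  set M : ℕ := ∏ n ∈ Icc 1 N, ff n with hM
  have hM0 : 0 < M := prod_pos fun n hn => ff_pos n (mem_Icc.1 hn).1
  have h3 : (M : ℝ) ^ 25 ≤ (2.7182818283 : ℝ) ^ (26 * N) := by
    have h4 : (M : ℝ) ^ 25 * 10000000000 ^ (26 * N) ≤ 27182818283 ^ (26 * N) := by exact_mod_cast h2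
    have h5 : (2.7182818283 : ℝ) ^ (26 * N) = 27182818283 ^ (26 * N) / 10000000000 ^ (26 * N) := by
      rw [← div_pow]; norm_num
    rw [h5, le_div_iff₀ (by positivity)]
    exact h4
  have h6 : (M : ℝ) ^ 25 ≤ Real.exp (26 * N) := by
    refine h3.trans ?_
    have h7 : Real.exp (26 * N) = Real.exp 1 ^ (26 * N) := by
      rw [← Real.exp_nat_mul]
      push_cast
      ring_nf
    rw [h7]
    exact pow_le_pow_left₀ (by norm_num) Real.exp_one_gt_d9.le _
  have h8 := Real.log_le_log (by positivity) h6
  rw [Real.log_exp, Real.log_pow] at h8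
  push_cast at h8
  linarith

lemma logb {p a : ℕ} (hp : 0 < p) (h : p ^ 100 * 10000000000 ^ a ≤ 27182818283 ^ a) :
    Real.log p ≤ a / 100 := by
  have h3 : (p : ℝ) ^ 100 ≤ (2.7182818283 : ℝ) ^ a := by
    have h4 : (p : ℝ) ^ 100 * 10000000000 ^ a ≤ 27182818283 ^ a := by exact_mod_cast h
    have h5 : (2.7182818283 : ℝ) ^ a = 27182818283 ^ a / 10000000000 ^ a := by
      rw [← div_pow]; norm_num
    rw [h5, le_div_iff₀ (by positivity)]
    exact h4
  have h6 : (p : ℝ) ^ 100 ≤ Real.exp a := by
    refine h3.trans ?_
    have h7 : Real.exp a = Real.exp 1 ^ a := by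
      rw [← Real.exp_nat_mul]
      ring_nf
    rw [h7]
    exact pow_le_pow_left₀ (by norm_num) Real.exp_one_gt_d9.le _
  have h8 := Real.log_le_log (by positivity) h6
  rw [Real.log_exp, Real.log_pow] at h8
  push_cast at h8
  linarith

/-- hundred times an upper bound for `log (ff n)` -/
def gg (n : ℕ) : ℕ :=
  match ff n with
  | 1 => 0
  | 2 => 70
  | 3 => 110
  | 5 => 161
  | 7 => 195
  | 11 => 240
  | 13 => 257
  | 17 => 284
  | 19 => 295
  | 23 => 314
  | 29 => 337
  | 31 => 344
  | 37 => 362
  | 41 => 372
  | 43 => 377
  | 47 => 386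
  | 53 => 398
  | 59 => 408
  | 61 => 412
  | 67 => 421
  | 71 => 427
  | 73 => 430
  | 79 => 437
  | 83 => 442
  | 89 => 449
  | 97 => 458
  | 101 => 462
  | 103 => 464
  | 107 => 468
  | 109 => 470
  | 113 => 473
  | _ => 1000

lemma chk2 : ∀ n ∈ Icc 1 121, (ff n) ^ 100 * 10000000000 ^ (gg n) ≤ 27182818283 ^ (gg n) := by
  decide +kernel

lemma chk3 : ∑ n ∈ Icc 1 121, (gg n * (Nat.factorial 121 / n)) ≤ 430 * Nat.factorial 121 := by
  decide +kernel


theorem mert120 : ∑ n ∈ Icc 1 121, vonMangoldt n / (n : ℝ) ≤ 43 / 10 := by
  have h1 : ∀ n ∈ Icc 1 121, vonMangoldt n / (n : ℝ) ≤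
      ((gg n * (Nat.factorial 121 / n) : ℕ) : ℝ) / (100 * (Nat.factorial 121 : ℕ)) := by
    intro n hn
    have hn' := mem_Icc.1 hn
    have h2 := logb (ff_pos n hn'.1) (chk2 n hn)
    rw [lam_ff n hn]
    have hn0 : (0 : ℝ) < n := by exact_mod_cast hn'.1
    have hd : n ∣ Nat.factorial 121 := Nat.dvd_factorial hn'.1 hn'.2
    have hF : (0 : ℝ) < (Nat.factorial 121 : ℕ) := by exact_mod_cast Nat.factorial_pos 121
    rw [Nat.cast_mul, Nat.cast_div hd hn0.ne']
    calc Real.log (ff n) / n ≤ (gg n / 100) / n := div_le_div_of_nonneg_right h2 hn0.le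
      _ = _ := by field_simp
  refine (sum_le_sum h1).trans ?_
  rw [← sum_div, ← Nat.cast_sum]
  have hF : (0 : ℝ) < (Nat.factorial 121 : ℕ) := by exact_mod_cast Nat.factorial_pos 121
  rw [div_le_iff₀ (by positivity)]
  have h3 : ((∑ n ∈ Icc 1 121, (gg n * (Nat.factorial 121 / n)) : ℕ) : ℝ) ≤
      ((430 * Nat.factorial 121 : ℕ) : ℝ) := by exact_mod_cast chk3
  refine h3.trans ?_
  rw [Nat.cast_mul]
  apply le_of_eq
  push_cast
  ring

end Pool.Agent.Zk17
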